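import Mathlib
import Pool.Agent.H15.Sym
import Pool.Agent.H15.Lev

set_option autoImplicit false

namespace Pool.Agent.Results.MP_c8ce56_lc.IffNotCH

open Set Cardinal Equiv

variable {G : Type} [Group G]

/-- Eventually macro-uniform functions for the omega-one ballean. -/
def Emu (f : G → ℝ) : Prop :=
  ∀ F : Set G, F.Countable → ∃ B : Set G, B.Countable ∧
    ∃ C : ℝ, ∀ x ∉ B, ∀ a ∈ F, ∀ b ∈ F, |f (a * x) - f (b * x)| ≤ C

/-- The omega-one ballean of `G` is emu-bounded. -/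
def EmuBounded (G : Type) [Group G] : Prop :=
  ∀ f : G → ℝ, Emu f → ∃ B : Set G, B.Countable ∧ ∃ C : ℝ, ∀ x ∉ B, |f x| ≤ C

lemma ct {S : Set G} : #S < ℵ₁ ↔ S.Countable := by
  rw [← succ_aleph0, Order.lt_succ_iff, le_aleph0_iff_set_countable]

lemma neg (h : #G = ℵ₁) : ¬EmuBounded G := fun H => by
  have h0 : ℵ₀ < #G := h ▸ aleph0_lt_aleph_one
  obtain ⟨l, su, -, hi, hm, sm⟩ := Pool.Agent.H15.Lev.exists_lev h0
  obtain ⟨e⟩ : Nonempty ((#G).ord.ToType ≃ G × ℕ) := Cardinal.eq.1 (by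
    simp [mul_eq_left h0.le h0.le aleph0_ne_zero])
  have := Cardinal.noMaxOrder h0.le
  obtain ⟨B, hB, C, hC⟩ := H (fun x => (e (l x)).2) fun F hF => by
    obtain ⟨d, hd⟩ := not_isCofinal_iff.1 fun k : IsCofinal (l '' F) =>
      (h ▸ ct.2 hF : #F < #G).not_ge (by
        simpa [(h ▸ isRegular_aleph_one : (#G).IsRegular).cof_ord] using
          (Order.cof_le k).trans mk_image_le)
    refine ⟨_, ct.1 ((sm d).trans_eq h), 0, fun x hx a ha b hb => ?_⟩
    have k : ∀ a ∈ F, l (a * x) = l x := fun a ha => Pool.Agent.H15.Lev.lmul' hi hm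
      ((hd _ ⟨a, ha, rfl⟩).trans (not_le.1 hx))
    simp [k a ha, k b hb]
  obtain ⟨n, hn⟩ := exists_nat_gt C
  obtain ⟨g, hg⟩ : ∃ g, g ∉ (fun x => (e (l x)).1) '' B := by
    by_contra! k
    exact (ct.2 (hB.image fun x => (e (l x)).1)).not_ge
      (by rw [eq_univ_of_forall k, mk_univ, h])
  obtain ⟨x, hx⟩ := su (e.symm (g, n))
  have := hC x fun k => hg ⟨x, k, by simp [hx]⟩
  simp [hx] at this
  linarith

/-- The omega-one ballean of the symmetric group is emu-bounded iff CH fails. -/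
theorem result : EmuBounded (Perm ℕ) ↔ (𝔠 : Cardinal.{0}) ≠ ℵ₁ := by
  refine ⟨fun H h => neg (by rw [mk_perm_eq_two_power, ← h]; simp) H, fun h f hf => ?_⟩
  obtain ⟨C, c0, hC⟩ : ∃ C : ℝ, 0 < C ∧ ∀ g, #{x | C < |f (g * x) - f x|} < ℵ₁ := by
    by_contra! n
    choose g hg using fun m : ℕ => n (m + 1) (by positivity)
    obtain ⟨B, hB, C, hC⟩ := hf (insert 1 (range g)) ((countable_range g).insert _)
    obtain ⟨m, hm⟩ := exists_nat_gt C
    obtain ⟨x, x1, x2⟩ := Pool.Agent.H15.Sym.pick (hg m) (ct.2 hB)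
    have := hC x x2 _ (.inr ⟨m, rfl⟩) 1 (.inl rfl)
    rw [one_mul] at this
    have x1 : (m : ℝ) + 1 < _ := x1
    linarith
  obtain ⟨v, hv⟩ := Pool.Agent.H15.Sym.main aleph0_lt_aleph_one.le
    (aleph_one_le_continuum.lt_of_ne' h) hC c0
  refine ⟨_, ct.1 hv, 26 * C + |v|, fun x hx => ?_⟩
  have := abs_sub_abs_le_abs_sub (f x) v
  have hx : |f x - v| ≤ 26 * C := not_lt.1 hx
  linarith

end Pool.Agent.Results.MP_c8ce56_lc.IffNotCH
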